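import Mathlib
import Pool.Agent.H.MP_91c91a_lc.B

namespace Pool.Agent.Results.MP_91c91a_lc.Theta

open Pool.Agent.H.MP_91c91a_lc

theorem result (k : ℕ) :
    (∃ C : ℕ, ∀ (S : Type) (h : Fin k → List S) (L : Set (List S)), Regular L → 1 ≤ tc L →
      Regular (inv h L) ∧ tc (inv h L) * Nat.log 2 (tc L) ≤ C * tc L ^ 2) ∧
    (2 ≤ k → ∃ C : ℕ, ∀ m, 24 ≤ m →
      ∃ (S : Type) (_ : Finite S) (h : Fin k → List S) (L : Set (List S)), Regular L ∧ tc L = m ∧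
        m ^ 2 ≤ C * (tc (inv h L) * Nat.log 2 m)) :=
  ⟨⟨_, fun _ h _ h1 h2 => upper k h h1 h2⟩, fun hk => ⟨_, lower k hk⟩⟩

end Pool.Agent.Results.MP_91c91a_lc.Theta
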